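import Pool.Agent.P.MP_b0885c_lc.IW

open Pool.Agent.P.MP_b0885c_lc Pool.Agent.Lib.PosetForcing

/-- There is an inner model of ZFC in which a minimal theory exists, and in which there is a
counterexample to Vaught's conjecture only if there is one in the universe. -/
theorem Pool.Agent.Results.MP_b0885c_lc.Internal.result : ∃ M : ZFSet.{0} → Prop,
    (∀ x y, M x → y ∈ x → M y) ∧ (∀ α : Ordinal.{0}, M α.toZFSet) ∧
    IsZFC (fun a b : {z // M z} => a.1 ∈ b.1) ∧ ∃ w : {z // M z}, w.1 = ZFSet.omega ∧
    (∃ T, In.Minimal (fun a b : {z // M z} => a.1 ∈ b.1) w T) ∧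
    (In.Cex (fun a b : {z // M z} => a.1 ∈ b.1) w →
      In.Cex (fun a b : ZFSet.{0} => a ∈ b) ZFSet.omega) :=
  let ⟨Z, h1, ⟨T, h2, _⟩, h3⟩ := In.final4
  ⟨MM Z, fun _ _ => MM.trans, mm_ord Z, h1, _, rfl, ⟨T, h2⟩, h3⟩

/-- Check of the definitions in the universe: a scattered sentence has countably many models iff
the Scott ranks of its models are bounded. -/
theorem Pool.Agent.Results.MP_b0885c_lc.Internal.few_iff_bounded
    (mem : ZFSet.{0} → ZFSet.{0} → Prop) (hm : mem = fun a b => a ∈ b) (ψ : ZFSet.{0})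
    (h1 : In.Sent mem ZFSet.omega ψ) (h2 : In.Scat mem ZFSet.omega (In.Models mem ZFSet.omega ψ)) :
    In.Few mem ZFSet.omega (In.Models mem ZFSet.omega ψ) ↔
      ¬ In.Unb mem ZFSet.omega (In.Models mem ZFSet.omega ψ) := by
  subst hm
  exact In.t_morley h1 h2

/-- Check of the definitions in the universe: countably many models exclude a perfect set. -/
theorem Pool.Agent.Results.MP_b0885c_lc.Internal.scat_of_few
    (mem : ZFSet.{0} → ZFSet.{0} → Prop) (hm : mem = fun a b => a ∈ b) (P : ZFSet.{0} → Prop)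
    (h : In.Few mem ZFSet.omega P) : In.Scat mem ZFSet.omega P := by
  subst hm
  exact In.t_scat h

/-- Check of the definitions in the universe: both sides of the dichotomy occur. -/
theorem Pool.Agent.Results.MP_b0885c_lc.Internal.both_occur
    (mem : ZFSet.{0} → ZFSet.{0} → Prop) (hm : mem = fun a b => a ∈ b) :
    (∃ ψ, In.Sent mem ZFSet.omega ψ ∧ ¬ In.Scat mem ZFSet.omega (In.Models mem ZFSet.omega ψ) ∧
      In.Unb mem ZFSet.omega (In.Models mem ZFSet.omega ψ) ∧
      ¬ In.Few mem ZFSet.omega (In.Models mem ZFSet.omega ψ)) ∧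
    ∃ ψ, In.Sent mem ZFSet.omega ψ ∧
      (∃ D, In.IsStr mem ZFSet.omega D ∧ In.Models mem ZFSet.omega ψ D) ∧
      In.Few mem ZFSet.omega (In.Models mem ZFSet.omega ψ) := by
  subst hm
  exact ⟨In.t_many, In.t_one⟩

/-- The alternative drawn from `result`: either there is a counterexample in the universe, or the
negated form of the question holds in a model of ZFC. So, if the implication asked for holds in all
models of ZFC, there is a counterexample in the universe. -/
theorem Pool.Agent.Results.MP_b0885c_lc.Internal.cex_or_negated_form :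
    In.Cex (fun a b : ZFSet.{0} => a ∈ b) ZFSet.omega ∨
      ∃ (N : Type 1) (mem : N → N → Prop), IsZFC mem ∧ ∃ w, IsOmega mem w ∧
        (∃ T, In.Minimal mem w T) ∧ ¬ In.Cex mem w := by
  obtain ⟨M, h1, _, h3, w, h4, h5, h6⟩ := Pool.Agent.Results.MP_b0885c_lc.Internal.result
  refine (em _).imp id fun h => ⟨_, _, h3, w, ?_, h5, fun h7 => h (h6 h7)⟩
  exact In.isOmega_sub h1 w h4
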