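import Pool.Agent.P.MP_b0885c_lc.IM3

open Pool.Agent.P.MP_b0885c_lc Pool.Agent.Lib.PosetForcing

/-- There is an inner model of ZFC with a minimal theory `T` such that, in the model, no `T ∧ φ`
is a counterexample to Vaught's conjecture. -/
theorem Pool.Agent.Results.MP_b0885c_lc.InternalLocal.result : ∃ M : ZFSet.{0} → Prop,
    (∀ x y, M x → y ∈ x → M y) ∧ (∀ α : Ordinal.{0}, M α.toZFSet) ∧
    IsZFC (fun a b : {z // M z} => a.1 ∈ b.1) ∧ ∃ w : {z // M z}, w.1 = ZFSet.omega ∧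
    ∃ T, In.Minimal (fun a b : {z // M z} => a.1 ∈ b.1) w T ∧
    ∀ φ, In.Sent (fun a b : {z // M z} => a.1 ∈ b.1) w φ →
      In.Scat (fun a b : {z // M z} => a.1 ∈ b.1) w
        (fun D => In.Models (fun a b : {z // M z} => a.1 ∈ b.1) w T D ∧
          In.Models (fun a b : {z // M z} => a.1 ∈ b.1) w φ D) →
      In.Few (fun a b : {z // M z} => a.1 ∈ b.1) w
        (fun D => In.Models (fun a b : {z // M z} => a.1 ∈ b.1) w T D ∧
          In.Models (fun a b : {z // M z} => a.1 ∈ b.1) w φ D) :=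
  let ⟨Z, h1, h2, _⟩ := In.final4
  ⟨MM Z, fun _ _ => MM.trans, mm_ord Z, h1, _, rfl, h2⟩
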